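import Mathlib
import Pool.Agent.helper72.CJ.Theta

/-!
# Module I: isomorphisms of families of torsion-free sheaves
-/

namespace Pool.Agent.helper33.CJ

open Finset Pool.Agent.helper72.CJ

section iso

variable {k : Type} [Field k] {V E : Type} {n : ℕ} (C : Curve k V E n)

theorem mem_sec {A : Type} [CommRing A] [Algebra k A] (F : Fam A V E) (s : V → Polynomial A) :
    s ∈ sec C F ↔ ∀ e, F.b e * (s (C.src e)).eval (algebraMap k A (C.p e)) =
      F.a e * (s (C.tgt e)).eval (algebraMap k A (C.q e)) := Iff.rfl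

theorem mul_mem_sec {A : Type} [CommRing A] [Algebra k A] (F : Fam A V E)
    {f s : V → Polynomial A} (hf : f ∈ regular C A) (hs : s ∈ sec C F) : f * s ∈ sec C F := by
  rw [mem_sec] at hs ⊢
  intro e
  have h1 := hs e
  have h2 : (f (C.src e)).eval (algebraMap k A (C.p e)) =
    (f (C.tgt e)).eval (algebraMap k A (C.q e)) := hf e
  simp only [Pi.mul_apply, Polynomial.eval_mul]
  rw [h2]
  linear_combination ((f (C.tgt e)).eval (algebraMap k A (C.q e))) * h1

theorem SheafIso.refl {A : Type} [CommRing A] [Algebra k A] (F : Fam A V E) : SheafIso C F F := by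
  refine ⟨AddEquiv.refl _, ?_, ?_⟩
  · intro f _ s t h
    exact h
  · intro m s
    exact Iff.rfl

theorem SheafIso.symm {A : Type} [CommRing A] [Algebra k A] {F F' : Fam A V E}
    (h : SheafIso C F F') : SheafIso C F' F := by
  obtain ⟨θ, h1, h2⟩ := h
  refine ⟨θ.symm, ?_, ?_⟩
  · intro f hf s t hst
    have h3 := h1 f hf (θ.symm s) ⟨f * (θ.symm s : V → Polynomial A),
      mul_mem_sec C F hf (θ.symm s).2⟩ rfl
    have h4 : θ ⟨f * (θ.symm s : V → Polynomial A), mul_mem_sec C F hf (θ.symm s).2⟩ = t := by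
      apply Subtype.ext
      rw [h3, hst]
      simp
    rw [← h4]
    simp
  · intro m s
    have h3 := h2 m (θ.symm s)
    simp only [AddEquiv.apply_symm_apply] at h3
    exact h3.symm

theorem SheafIso.trans {A : Type} [CommRing A] [Algebra k A] {F F' F'' : Fam A V E}
    (h : SheafIso C F F') (h' : SheafIso C F' F'') : SheafIso C F F'' := by
  obtain ⟨θ, h1, h2⟩ := h
  obtain ⟨θ', h1', h2'⟩ := h'
  refine ⟨θ.trans θ', ?_, ?_⟩
  · intro f hf s t hst
    exact h1' f hf (θ s) (θ t) (h1 f hf s t hst)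
  · intro m s
    exact (h2 m s).trans (h2' m (θ s))

/-- A criterion for isomorphisms: two mutually inverse maps. -/
theorem iso_of_maps {A : Type} [CommRing A] [Algebra k A] (F F' : Fam A V E)
    (u u' : (V → Polynomial A) → (V → Polynomial A))
    (hu : ∀ s ∈ sec C F, u s ∈ sec C F') (hu' : ∀ s ∈ sec C F', u' s ∈ sec C F)
    (h1 : ∀ s ∈ sec C F, u' (u s) = s) (h2 : ∀ s ∈ sec C F', u (u' s) = s)
    (hadd : ∀ s ∈ sec C F, ∀ t ∈ sec C F, u (s + t) = u s + u t)
    (hmul : ∀ f : V → Polynomial A, ∀ s ∈ sec C F, u (f * s) = f * u s)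
    (hpole : ∀ (m : V → ℤ), ∀ s ∈ sec C F, PoleLE F.d m s ↔ PoleLE F'.d m (u s)) :
    SheafIso C F F' := by
  refine ⟨{ toFun := fun s => ⟨u s.1, hu s.1 s.2⟩, invFun := fun s => ⟨u' s.1, hu' s.1 s.2⟩,
            left_inv := fun s => Subtype.ext (h1 s.1 s.2),
            right_inv := fun s => Subtype.ext (h2 s.1 s.2),
            map_add' := fun s t => Subtype.ext (hadd s.1 s.2 t.1 t.2) }, ?_, ?_⟩
  · intro f _ s t hst
    change u t.1 = f * u s.1
    rw [← hmul f s.1 s.2, ← hst]
  · intro m s
    exact hpole m s.1 s.2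

/-- Rescaling: `α`, `β` are the ratios of the gluing data at the nodes. -/
theorem iso_scale {A : Type} [CommRing A] [Algebra k A] (F F' : Fam A V E) (hd : F'.d = F.d)
    (α β : E → Aˣ) (ha : ∀ e, F'.a e = α e * F.a e) (hb : ∀ e, F'.b e = β e * F.b e)
    (c : V → Aˣ) (hc : ∀ e, α e * c (C.tgt e) = β e * c (C.src e)) : SheafIso C F F' := by
  have hc' : ∀ e, (α e : A) * (c (C.tgt e) : A) = (β e : A) * (c (C.src e) : A) := by
    intro e
    have := congrArg (fun x : Aˣ => (x : A)) (hc e)
    simpa using this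
  refine iso_of_maps C F F' (fun s v => Polynomial.C (c v : A) * s v)
    (fun s v => Polynomial.C ((c v)⁻¹ : Aˣ).val * s v) ?_ ?_ ?_ ?_ ?_ ?_ ?_
  · intro s hs
    rw [mem_sec] at hs ⊢
    intro e
    simp only [Polynomial.eval_mul, Polynomial.eval_C]
    rw [ha, hb]
    linear_combination ((β e : A) * (c (C.src e) : A)) * hs e -
      (F.a e * (s (C.tgt e)).eval (algebraMap k A (C.q e))) * hc' e
  · intro s hs
    rw [mem_sec] at hs ⊢
    intro e
    simp only [Polynomial.eval_mul, Polynomial.eval_C]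
    have h1 := hs e
    rw [ha, hb] at h1
    have h2 := hc' e
    have h3 : (c (C.tgt e) : A) * ((c (C.tgt e))⁻¹ : Aˣ).val = 1 := by simp
    have h4 : (c (C.src e) : A) * ((c (C.src e))⁻¹ : Aˣ).val = 1 := by simp
    have h5 : (α e : A) * ((α e)⁻¹ : Aˣ).val = 1 := by simp
    have h6 : (β e : A) * ((β e)⁻¹ : Aˣ).val = 1 := by simp
    generalize ((c (C.tgt e))⁻¹ : Aˣ).val = ct' at *
    generalize ((c (C.src e))⁻¹ : Aˣ).val = cs' at *
    generalize ((α e)⁻¹ : Aˣ).val = α' at *
    generalize ((β e)⁻¹ : Aˣ).val = β' at *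
    generalize (c (C.tgt e) : A) = ct at *
    generalize (c (C.src e) : A) = cs at *
    generalize (α e : A) = α0 at *
    generalize (β e : A) = β0 at *
    generalize Polynomial.eval (algebraMap k A (C.p e)) (s (C.src e)) = x at *
    generalize Polynomial.eval (algebraMap k A (C.q e)) (s (C.tgt e)) = y at *
    generalize F.a e = a at *
    generalize F.b e = b at *
    -- h1 : β0 * b * x = α0 * a * y; h2 : α0 * ct = β0 * cs
    -- goal : b * (cs' * x) = a * (ct' * y)
    have g1 : b * x = β' * α0 * a * y := by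
      linear_combination β' * h1 - b * x * h6
    -- cs' α0 β' = ct'
    have g2 : cs' * β' * α0 = ct' := by
      -- multiply h2 by cs' β' ct'
      linear_combination (cs' * β' * ct') * h2 - (cs' * β' * α0) * h3 + (ct' * cs' * cs) * h6 +
        ct' * h4
    linear_combination cs' * g1 + a * y * g2
  · intro s _
    funext v
    change Polynomial.C ((c v)⁻¹ : Aˣ).val * (Polynomial.C (c v : A) * s v) = s v
    rw [← mul_assoc, ← Polynomial.C_mul]
    simp
  · intro s _
    funext v
    change Polynomial.C (c v : A) * (Polynomial.C ((c v)⁻¹ : Aˣ).val * s v) = s v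
    rw [← mul_assoc, ← Polynomial.C_mul]
    simp
  · intro s _ t _
    funext v
    simp [mul_add]
  · intro f s _
    funext v
    simp only [Pi.mul_apply]
    ring
  · intro m s _
    unfold PoleLE
    rw [hd]
    constructor
    · intro h v j hj
      simp only [Polynomial.coeff_C_mul]
      rw [h v j hj, mul_zero]
    · intro h v j hj
      have h1 := h v j hj
      simp only [Polynomial.coeff_C_mul] at h1
      have h2 : ((c v)⁻¹ : Aˣ).val * ((c v : A) * (s v).coeff j) = 0 := by rw [h1, mul_zero]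
      simpa using h2

/-- Multiplication by a monic linear polynomial shifts the pole bound by one. -/
theorem pole_shift {A : Type} [CommRing A] (D : ℤ) (s : Polynomial A) (a : A) :
    (∀ j : ℕ, D < j → s.coeff j = 0) ↔
      ∀ j : ℕ, D + 1 < j → ((Polynomial.X - Polynomial.C a) * s).coeff j = 0 := by
  have hc : ∀ j : ℕ, ((Polynomial.X - Polynomial.C a) * s).coeff (j + 1) =
      s.coeff j - a * s.coeff (j + 1) := by
    intro j
    rw [sub_mul, Polynomial.coeff_sub, Polynomial.coeff_X_mul, Polynomial.coeff_C_mul]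
  have hc0 : ((Polynomial.X - Polynomial.C a) * s).coeff 0 = - (a * s.coeff 0) := by
    rw [sub_mul, Polynomial.coeff_sub, Polynomial.coeff_X_mul_zero, Polynomial.coeff_C_mul]
    ring
  constructor
  · intro h j hj
    cases j with
    | zero =>
      rw [hc0, h 0 (by push_cast at hj ⊢; omega)]
      simp
    | succ i =>
      rw [hc, h i (by push_cast at hj ⊢; omega), h (i + 1) (by push_cast at hj ⊢; omega)]
      simp
  · intro h j hj
    have hstep : ∀ i : ℕ, D < i → s.coeff i = a * s.coeff (i + 1) := by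
      intro i hi
      have h1 := h (i + 1) (by push_cast; omega)
      rw [hc] at h1
      linear_combination h1
    have hind : ∀ (N : ℕ) (i : ℕ), D < i → s.natDegree < i + N → s.coeff i = 0 := by
      intro N
      induction N with
      | zero =>
        intro i _ hN
        exact Polynomial.coeff_eq_zero_of_natDegree_lt (by omega)
      | succ N ih =>
        intro i hi hN
        rw [hstep i hi, ih (i + 1) (by push_cast; omega) (by omega), mul_zero]
    exact hind (s.natDegree + 1) j hj (by omega)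

/-- Moving a degree across a node at which the gluing data are degenerate. -/
theorem iso_shift [DecidableEq V] {A : Type} [CommRing A] [Algebra k A] (F F' : Fam A V E)
    (e₀ : E) (hne : C.src e₀ ≠ C.tgt e₀) (hb : F.b e₀ = 0) (ha : F'.a e₀ = 0)
    (hd : F'.d = F.d + Pi.single (C.src e₀) 1 - Pi.single (C.tgt e₀) 1)
    (κs κt : E → kˣ)
    (hs : ∀ e ≠ e₀, (κs e : k) = (if C.src e = C.src e₀ then C.p e - C.p e₀ else 1) *
      (if C.src e = C.tgt e₀ then (C.p e - C.q e₀)⁻¹ else 1))
    (ht : ∀ e ≠ e₀, (κt e : k) = (if C.tgt e = C.src e₀ then C.q e - C.p e₀ else 1) *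
      (if C.tgt e = C.tgt e₀ then (C.q e - C.q e₀)⁻¹ else 1))
    (hs' : ∀ e ≠ e₀, algebraMap k A (κs e) * F'.b e = F.b e)
    (ht' : ∀ e ≠ e₀, algebraMap k A (κt e) * F'.a e = F.a e) : SheafIso C F F' := by
  set u := C.src e₀ with hu
  set w := C.tgt e₀ with hw
  set P : Polynomial A := Polynomial.X - Polynomial.C (algebraMap k A (C.p e₀)) with hP
  set Q : Polynomial A := Polynomial.X - Polynomial.C (algebraMap k A (C.q e₀)) with hQ
  have hPm : P.Monic := Polynomial.monic_X_sub_C _
  have hQm : Q.Monic := Polynomial.monic_X_sub_C _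
  -- sections of F vanish at q e₀
  have hroot : ∀ s ∈ sec C F, (s w).eval (algebraMap k A (C.q e₀)) = 0 := by
    intro s hs0
    have h1 := (mem_sec C F s).1 hs0 e₀
    rw [hb, zero_mul] at h1
    obtain ⟨x, y, hxy⟩ := F.cop e₀
    rw [hb, mul_zero, add_zero] at hxy
    calc (s w).eval (algebraMap k A (C.q e₀))
        = (x * F.a e₀) * (s w).eval (algebraMap k A (C.q e₀)) := by rw [hxy, one_mul]
      _ = x * (F.a e₀ * (s w).eval (algebraMap k A (C.q e₀))) := by ring
      _ = 0 := by rw [← h1, mul_zero]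
  have hroot' : ∀ s ∈ sec C F', (s u).eval (algebraMap k A (C.p e₀)) = 0 := by
    intro s hs0
    have h1 := (mem_sec C F' s).1 hs0 e₀
    rw [ha, zero_mul] at h1
    obtain ⟨x, y, hxy⟩ := F'.cop e₀
    rw [ha, mul_zero, zero_add] at hxy
    calc (s u).eval (algebraMap k A (C.p e₀))
        = (y * F'.b e₀) * (s u).eval (algebraMap k A (C.p e₀)) := by rw [hxy, one_mul]
      _ = y * (F'.b e₀ * (s u).eval (algebraMap k A (C.p e₀))) := by ring
      _ = 0 := by rw [h1, mul_zero]
  have hdiv : ∀ s ∈ sec C F, Q * (s w /ₘ Q) = s w := by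
    intro s hs0
    exact Polynomial.mul_divByMonic_eq_iff_isRoot.2 (hroot s hs0)
  have hdiv' : ∀ s ∈ sec C F', P * (s u /ₘ P) = s u := by
    intro s hs0
    exact Polynomial.mul_divByMonic_eq_iff_isRoot.2 (hroot' s hs0)
  have hcan : ∀ f : Polynomial A, (Q * f) /ₘ Q = f := fun f => Polynomial.mul_divByMonic_cancel_left f hQm
  have hcan' : ∀ f : Polynomial A, (P * f) /ₘ P = f := fun f => Polynomial.mul_divByMonic_cancel_left f hPm
  have hPe : ∀ x : k, P.eval (algebraMap k A x) = algebraMap k A (x - C.p e₀) := by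
    intro x
    simp [hP]
  have hQe : ∀ x : k, Q.eval (algebraMap k A x) = algebraMap k A (x - C.q e₀) := by
    intro x
    simp [hQ]
  set U : (V → Polynomial A) → (V → Polynomial A) := fun s v =>
    if v = u then P * s v else if v = w then s v /ₘ Q else s v with hU
  set U' : (V → Polynomial A) → (V → Polynomial A) := fun s v =>
    if v = w then Q * s v else if v = u then s v /ₘ P else s v with hU'
  have hUu : ∀ s, U s u = P * s u := by intro s; simp [hU]
  have hUw : ∀ s, U s w = s w /ₘ Q := by intro s; simp [hU, Ne.symm hne]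
  have hUo : ∀ s v, v ≠ u → v ≠ w → U s v = s v := by intro s v h1 h2; simp [hU, h1, h2]
  have hUu' : ∀ s, U' s w = Q * s w := by intro s; simp [hU']
  have hUw' : ∀ s, U' s u = s u /ₘ P := by intro s; simp [hU', hne]
  have hUo' : ∀ s v, v ≠ u → v ≠ w → U' s v = s v := by intro s v h1 h2; simp [hU', h1, h2]
  -- values of U s at a point x of the component v
  have hval : ∀ s ∈ sec C F, ∀ (v : V) (x : k), (v = w → x ≠ C.q e₀) →
      (U s v).eval (algebraMap k A x) =
        algebraMap k A ((if v = u then x - C.p e₀ else 1) * (if v = w then (x - C.q e₀)⁻¹ else 1)) *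
          (s v).eval (algebraMap k A x) := by
    intro s hs0 v x hx
    by_cases h1 : v = u
    · subst h1
      rw [hUu, if_pos rfl, if_neg hne, Polynomial.eval_mul, hPe, mul_one]
    · by_cases h2 : v = w
      · subst h2
        rw [hUw, if_neg (Ne.symm hne), if_pos rfl, one_mul]
        have h3 := congrArg (Polynomial.eval (algebraMap k A x)) (hdiv s hs0)
        rw [Polynomial.eval_mul, hQe] at h3
        rw [← h3, ← mul_assoc, ← map_mul, inv_mul_cancel₀ (sub_ne_zero.2 (hx rfl)), map_one, one_mul]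
      · rw [hUo s v h1 h2, if_neg h1, if_neg h2, mul_one, map_one, one_mul]
  have hval' : ∀ s ∈ sec C F', ∀ (v : V) (x : k), (v = w → x ≠ C.q e₀) →
      algebraMap k A ((if v = u then x - C.p e₀ else 1) * (if v = w then (x - C.q e₀)⁻¹ else 1)) *
        (U' s v).eval (algebraMap k A x) = (s v).eval (algebraMap k A x) := by
    intro s hs0 v x hx
    by_cases h1 : v = u
    · subst h1
      rw [hUw', if_pos rfl, if_neg hne, mul_one, ← hPe, ← Polynomial.eval_mul, hdiv' s hs0]
    · by_cases h2 : v = w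
      · subst h2
        rw [hUu', if_neg (Ne.symm hne), if_pos rfl, one_mul, Polynomial.eval_mul, hQe, ← mul_assoc,
          ← map_mul, inv_mul_cancel₀ (sub_ne_zero.2 (hx rfl)), map_one, one_mul]
      · rw [hUo' s v h1 h2, if_neg h1, if_neg h2, mul_one, map_one, one_mul]
  have hsrc : ∀ e, C.src e = w → C.p e ≠ C.q e₀ := fun e h1 => C.pq e e₀ h1
  have htgt : ∀ e, e ≠ e₀ → C.tgt e = w → C.q e ≠ C.q e₀ :=
    fun e h1 h2 h3 => h1 (C.qq e e₀ h2 h3)
  refine iso_of_maps C F F' U U' ?_ ?_ ?_ ?_ ?_ ?_ ?_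
  · intro s hs0
    rw [mem_sec]
    intro e
    by_cases he : e = e₀
    · subst he
      rw [ha, zero_mul, ← hu, hUu, Polynomial.eval_mul, hPe, sub_self, map_zero, zero_mul, mul_zero]
    · rw [hval s hs0 _ _ (hsrc e), hval s hs0 _ _ (htgt e he), ← hs e he, ← ht e he]
      have h1 := (mem_sec C F s).1 hs0 e
      rw [← hs' e he, ← ht' e he] at h1
      linear_combination h1
  · intro s hs0
    rw [mem_sec]
    intro e
    by_cases he : e = e₀
    · subst he
      rw [hb, zero_mul, ← hw, hUu', Polynomial.eval_mul, hQe, sub_self, map_zero, zero_mul, mul_zero]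
    · have h1 := (mem_sec C F' s).1 hs0 e
      have h2 := hval' s hs0 _ _ (hsrc e)
      have h3 := hval' s hs0 _ _ (htgt e he)
      rw [← hs e he] at h2
      rw [← ht e he] at h3
      rw [← h2, ← h3] at h1
      rw [← hs' e he, ← ht' e he]
      linear_combination h1
  · intro s hs0
    funext v
    by_cases h1 : v = u
    · subst h1
      rw [hUw', hUu, hcan']
    · by_cases h2 : v = w
      · subst h2
        rw [hUu', hUw, hdiv s hs0]
      · rw [hUo' _ v h1 h2, hUo _ v h1 h2]
  · intro s hs0
    funext v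
    by_cases h1 : v = u
    · subst h1
      rw [hUu, hUw', hdiv' s hs0]
    · by_cases h2 : v = w
      · subst h2
        rw [hUw, hUu', hcan]
      · rw [hUo _ v h1 h2, hUo' _ v h1 h2]
  · intro s hs0 t ht0
    funext v
    by_cases h1 : v = u
    · subst h1
      rw [Pi.add_apply, hUu, hUu, hUu, Pi.add_apply, mul_add]
    · by_cases h2 : v = w
      · subst h2
        rw [Pi.add_apply, hUw, hUw, hUw, Pi.add_apply]
        conv_lhs => rw [← hdiv s hs0, ← hdiv t ht0, ← mul_add, hcan]
      · rw [Pi.add_apply, hUo _ v h1 h2, hUo _ v h1 h2, hUo _ v h1 h2, Pi.add_apply]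
  · intro f s hs0
    funext v
    by_cases h1 : v = u
    · subst h1
      rw [Pi.mul_apply, hUu, hUu, Pi.mul_apply]
      ring
    · by_cases h2 : v = w
      · subst h2
        rw [Pi.mul_apply, hUw, hUw, Pi.mul_apply]
        conv_lhs => rw [← hdiv s hs0, mul_left_comm, hcan]
      · rw [Pi.mul_apply, hUo _ v h1 h2, hUo _ v h1 h2, Pi.mul_apply]
  · intro m s hs0
    have key : ∀ v, (∀ j : ℕ, F.d v + m v < j → (s v).coeff j = 0) ↔
        ∀ j : ℕ, F'.d v + m v < j → (U s v).coeff j = 0 := by
      intro v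
      rw [hd]
      by_cases h1 : v = u
      · subst h1
        simp only [Pi.add_apply, Pi.sub_apply, Pi.single_eq_same, Pi.single_eq_of_ne hne, sub_zero]
        rw [hUu, pole_shift (F.d u + m u) (s u) (algebraMap k A (C.p e₀))]
        rw [show F.d u + m u + 1 = F.d u + 1 + m u by ring]
      · by_cases h2 : v = w
        · subst h2
          simp only [Pi.add_apply, Pi.sub_apply, Pi.single_eq_same, Pi.single_eq_of_ne h1, add_zero]
          rw [hUw, pole_shift (F.d w - 1 + m w) (s w /ₘ Q) (algebraMap k A (C.q e₀))]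
          rw [← hQ, hdiv s hs0, show F.d w - 1 + m w + 1 = F.d w + m w by ring]
        · simp only [Pi.add_apply, Pi.sub_apply, Pi.single_eq_of_ne h1, Pi.single_eq_of_ne h2,
            add_zero, sub_zero]
          rw [hUo s v h1 h2]
    exact forall_congr' key

open Classical in
/-- Interpolation at all nodes: a tuple of polynomials with prescribed values at the node `e₀`
and zero at all other nodes. -/
theorem exists_interp [Fintype E] [DecidableEq V] (e₀ : E) (x y : k) :
    ∃ s : V → Polynomial k, (∀ e ≠ e₀, (s (C.src e)).eval (C.p e) = 0 ∧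
      (s (C.tgt e)).eval (C.q e) = 0) ∧ (s (C.src e₀)).eval (C.p e₀) = x ∧
      (s (C.tgt e₀)).eval (C.q e₀) = y := by
  set g : V → k → k := fun v z => if v = C.src e₀ ∧ z = C.p e₀ then x else
    if v = C.tgt e₀ ∧ z = C.q e₀ then y else 0 with hg
  set N : Finset k := univ.image C.p ∪ univ.image C.q with hN
  have hp : ∀ e, C.p e ∈ N := fun e => mem_union_left _ (mem_image_of_mem _ (mem_univ e))
  have hq : ∀ e, C.q e ∈ N := fun e => mem_union_right _ (mem_image_of_mem _ (mem_univ e))
  have hint : ∀ v, ∀ z ∈ N, (Lagrange.interpolate N id (g v)).eval z = g v z := by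
    intro v z hz
    exact Lagrange.eval_interpolate_at_node (g v) (fun _ _ _ _ h => h) hz
  refine ⟨fun v => Lagrange.interpolate N id (g v), ?_, ?_, ?_⟩
  · intro e he
    rw [hint _ _ (hp e), hint _ _ (hq e)]
    constructor
    · simp only [hg]
      rw [if_neg (fun h => he (C.pp e e₀ h.1 h.2)), if_neg (fun h => C.pq e e₀ h.1 h.2)]
    · simp only [hg]
      rw [if_neg (fun h => C.pq e₀ e h.1.symm h.2.symm), if_neg (fun h => he (C.qq e e₀ h.1 h.2))]
  · rw [hint _ _ (hp e₀)]
    simp [hg]
  · rw [hint _ _ (hq e₀)]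
    simp only [hg]
    rw [if_neg (fun h => C.pq e₀ e₀ h.1.symm h.2.symm)]
    simp

/-- Sheaves that are not locally free at different nodes are not isomorphic. -/
theorem not_iso [Fintype E] [DecidableEq V] (F F' : Fam k V E) (e₀ : E) (h : F.a e₀ = 0 ∨ F.b e₀ = 0)
    (h' : F'.a e₀ ≠ 0 ∧ F'.b e₀ ≠ 0) : ¬ SheafIso C F F' := by
  classical
  rintro ⟨θ, hθ, _⟩
  obtain ⟨r, hr1, hr2, hr3⟩ := exists_interp C e₀ (1 : k) 0
  obtain ⟨s', hs1, hs2, hs3⟩ := exists_interp C e₀ (F'.a e₀) (F'.b e₀)
  -- `c` vanishes at all nodes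
  set N : Finset k := univ.image C.p ∪ univ.image C.q with hN
  have hp : ∀ e, C.p e ∈ N := fun e => mem_union_left _ (mem_image_of_mem _ (mem_univ e))
  have hq : ∀ e, C.q e ∈ N := fun e => mem_union_right _ (mem_image_of_mem _ (mem_univ e))
  set c0 : Polynomial k := ∏ z ∈ N, (Polynomial.X - Polynomial.C z) with hc0
  have hc0m : c0.Monic := Polynomial.monic_prod_of_monic _ _ (fun z _ => Polynomial.monic_X_sub_C z)
  have hc0e : ∀ z ∈ N, c0.eval z = 0 := by
    intro z hz
    rw [hc0, Polynomial.eval_prod]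
    exact Finset.prod_eq_zero hz (by simp)
  set c : V → Polynomial k := fun _ => c0 with hc
  have hcreg : c ∈ regular C k := by
    intro e
    simp only [hc, Algebra.algebraMap_self, RingHom.id_apply]
    rw [hc0e _ (hp e), hc0e _ (hq e)]
  have hcrreg : c * r ∈ regular C k := by
    intro e
    simp only [hc, Pi.mul_apply, Polynomial.eval_mul, Algebra.algebraMap_self, RingHom.id_apply]
    rw [hc0e _ (hp e), hc0e _ (hq e), zero_mul, zero_mul]
  -- multiplication by `r` preserves the sections of `F`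
  have hrF : ∀ s ∈ sec C F, r * s ∈ sec C F := by
    intro s hs0
    rw [mem_sec]
    intro e
    have h1 := (mem_sec C F s).1 hs0 e
    simp only [Pi.mul_apply, Polynomial.eval_mul, Algebra.algebraMap_self, RingHom.id_apply] at h1 ⊢
    by_cases he : e = e₀
    · subst he
      rw [hr2, hr3]
      rcases h with h | h
      · rw [h, zero_mul] at h1 ⊢
        rw [one_mul, h1]
      · rw [h]
        ring
    · rw [(hr1 e he).1, (hr1 e he).2]
      ring
  have hs'F : s' ∈ sec C F' := by
    rw [mem_sec]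
    intro e
    simp only [Algebra.algebraMap_self, RingHom.id_apply]
    by_cases he : e = e₀
    · subst he
      rw [hs2, hs3]
      ring
    · rw [(hs1 e he).1, (hs1 e he).2]
      ring
  set s : sec C F := θ.symm ⟨s', hs'F⟩ with hs
  have hθs : (θ s : V → Polynomial k) = s' := by
    rw [hs, AddEquiv.apply_symm_apply]
  set t : sec C F := ⟨r * s.1, hrF s.1 s.2⟩ with ht
  have hc1 : c * (c * 0) = 0 := by simp
  set t2 : sec C F := ⟨c * t.1, mul_mem_sec C F hcreg t.2⟩ with ht2
  have e1 : (θ t2 : V → Polynomial k) = c * (θ t : V → Polynomial k) := hθ c hcreg t t2 rfl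
  have e2 : (θ t2 : V → Polynomial k) = (c * r) * (θ s : V → Polynomial k) := by
    refine hθ (c * r) hcrreg s t2 ?_
    change c * (r * s.1) = c * r * s.1
    rw [mul_assoc]
  have e3 : (θ t : V → Polynomial k) = r * s' := by
    funext v
    have h1 := congrFun (e1.symm.trans e2) v
    rw [hθs] at h1
    simp only [Pi.mul_apply, hc, mul_assoc] at h1
    exact mul_left_cancel₀ hc0m.ne_zero h1
  have h2 := (mem_sec C F' _).1 (θ t).2 e₀
  rw [e3] at h2
  simp only [Pi.mul_apply, Polynomial.eval_mul, Algebra.algebraMap_self, RingHom.id_apply] at h2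
  rw [hr2, hr3, hs2, one_mul, zero_mul, mul_zero] at h2
  rcases mul_eq_zero.1 h2 with h3 | h3
  · exact h'.2 h3
  · exact h'.1 h3

end iso

end Pool.Agent.helper33.CJ
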